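import Pool.Agent.W830.RD.Stm

/-!
# Project RD (helper830), part ADIR: assembly with conversions
-/

set_option autoImplicit false

namespace Pool.Agent.W335.RD.Adir

open Finset Pool.Agent.W830.RD
open scoped Classical

theorem add_slots (hS : S_SADD) {α : Type} [PartialOrder α] (N₀ : ℕ) (D U : Finset α)
    (h0 : Sch N₀ D U) (ψ β : Finset α → α) (K : Finset (Finset α))
    (hch : ∀ C ∈ K, Chn C) (hβ : ∀ C ∈ K, ∀ x ∈ C, x ≠ β C → ¬ x ≤ ψ C) :
    Sch (N₀ + K.card) (D ∪ K.biUnion fun C => C.erase (β C)) (U ∪ K.image ψ) := by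
  induction K using Finset.induction_on with
  | empty => simpa using h0
  | insert C K hC ih =>
    have h1 := ih (fun C' hC' => hch C' (Finset.mem_insert_of_mem hC'))
      (fun C' hC' => hβ C' (Finset.mem_insert_of_mem hC'))
    have h2 := hS α (N₀ + K.card) _ _ (C.erase (β C)) {ψ C} h1
      (fun x hx y hy => hch C (Finset.mem_insert_self _ _) x (Finset.mem_of_mem_erase hx) y
        (Finset.mem_of_mem_erase hy))
      (fun x hx y hy => by
        rw [Finset.mem_singleton] at hx hy
        left
        rw [hx, hy])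
      (fun d hd u hu => by
        rw [Finset.mem_singleton] at hu
        rw [hu]
        exact hβ C (Finset.mem_insert_self _ _) d (Finset.mem_of_mem_erase hd)
          (Finset.ne_of_mem_erase hd))
    have e1 : N₀ + (insert C K).card = N₀ + K.card + 1 := by
      rw [Finset.card_insert_of_notMem hC]; ring
    have e2 : D ∪ (insert C K).biUnion (fun C => C.erase (β C)) =
        D ∪ K.biUnion (fun C => C.erase (β C)) ∪ C.erase (β C) := by
      rw [Finset.biUnion_insert]
      ext x
      simp only [Finset.mem_union]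
      tauto
    have e3 : U ∪ (insert C K).image ψ = U ∪ K.image ψ ∪ {ψ C} := by
      rw [Finset.image_insert]
      ext x
      simp only [Finset.mem_union, Finset.mem_insert, Finset.mem_singleton]
      tauto
    rw [e1, e2, e3]
    exact h2

theorem main (hA : S_ASM) (hS : S_SADD) : S_ADIR := by
  intro α _ S T P Q Is J ψ β φ X N e hSt hST hIs hψ hψi hβ hJ hX hXe hφ hφi hφx hJe h1 h2 h3
  have hβS : Disjoint S (Is.image β) := by
    rw [Finset.disjoint_left]
    intro x hxS hxβ
    rw [Finset.mem_image] at hxβ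
    obtain ⟨C, hC, rfl⟩ := hxβ
    exact (Finset.disjoint_left.1 (hSt.dP C (hIs hC))) (hβ C hC).1 hxS
  have hβi : Set.InjOn β (Is : Set (Finset α)) := by
    intro C hC C' hC' hcc
    by_contra hne
    have h4 := hSt.pP C (hIs hC) C' (hIs hC') hne
    refine (Finset.disjoint_left.1 h4) (hβ C hC).1 ?_
    rw [hcc]
    exact (hβ C' hC').1
  have cS : (S ∪ Is.image β).card = S.card + Is.card := by
    rw [Finset.card_union_of_disjoint hβS, Finset.card_image_of_injOn hβi]
  have hψT : Is.image ψ ⊆ T := by
    intro y hy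
    rw [Finset.mem_image] at hy
    obtain ⟨C, hC, rfl⟩ := hy
    exact hψ C hC
  have cψ : (Is.image ψ).card = Is.card :=
    Finset.card_image_of_injOn fun C hC C' hC' h => hψi C hC C' hC' h
  have cT : (T \ Is.image ψ).card = T.card - Is.card := by
    rw [Finset.card_sdiff_of_subset hψT, cψ]
  have hIT : Is.card ≤ T.card := by
    rw [← cψ]
    exact Finset.card_le_card hψT
  obtain ⟨Tp, hTp, hTpc⟩ := Finset.exists_subset_card_eq (s := T \ Is.image ψ) (n := e - J.card)
    (by rw [cT]; omega)
  have cSX : ((S ∪ Is.image β) \ X).card = S.card + Is.card - e := by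
    rw [Finset.card_sdiff_of_subset hX, cS, hXe]
  have cTT : ((T \ Is.image ψ) \ Tp).card = T.card - Is.card - (e - J.card) := by
    rw [Finset.card_sdiff_of_subset hTp, cT, hTpc]
  have hXle : e ≤ S.card + Is.card := by
    rw [← cS, ← hXe]
    exact Finset.card_le_card hX
  have hTple : e - J.card ≤ T.card - Is.card := by omega
  have hIP : Is.card ≤ P.card := Finset.card_le_card hIs
  have hJQ : J.card ≤ Q.card := Finset.card_le_card hJ
  have cP : (P \ Is).card = P.card - Is.card := Finset.card_sdiff_of_subset hIs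
  have cQ : (Q \ J).card = Q.card - J.card := Finset.card_sdiff_of_subset hJ
  have key := hA α (S ∪ Is.image β) (T \ Is.image ψ) (P \ Is) Q J X Tp φ
    (fun C hC => hSt.chP C (Finset.mem_sdiff.1 hC).1) hSt.chQ hJ hX hTp
    (by
      intro x hx y hy
      have hyT : y ∈ T := (Finset.mem_sdiff.1 (hTp hy)).1
      rcases Finset.mem_union.1 (hX hx) with h4 | h4
      · exact hST x h4 y hyT
      · rw [Finset.mem_image] at h4
        obtain ⟨C, hC, rfl⟩ := h4
        exact (hβ C hC).2.2 y hyT)
    hφ hφi hφx (by rw [hTpc, hXe]; omega) (by rw [cSX, cTT, hXe]; omega)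
  rw [cSX, cTT, cP, cQ, hXe] at key
  have h4 := add_slots hS _ _ _ key ψ β Is (fun C hC => hSt.chP C (hIs hC))
    (fun C hC => (hβ C hC).2.1)
  have eN : e + (S.card + Is.card - e) + (T.card - Is.card - (e - J.card)) +
      (P.card - Is.card) + (Q.card - J.card) + Is.card = N := by omega
  rw [eN] at h4
  have eD : DD (S ∪ Is.image β) (P \ Is) ∪ Is.biUnion (fun C => C.erase (β C)) = DD S P := by
    ext x
    simp only [DD, Finset.mem_union, Finset.mem_biUnion, Finset.mem_image, Finset.mem_sdiff, id,
      Finset.mem_erase]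
    constructor
    · rintro (((h | ⟨C, hC, rfl⟩) | ⟨C, hC, hx⟩) | ⟨C, hC, hx⟩)
      · exact Or.inl h
      · exact Or.inr ⟨C, hIs hC, (hβ C hC).1⟩
      · exact Or.inr ⟨C, hC.1, hx⟩
      · exact Or.inr ⟨C, hIs hC, hx.2⟩
    · rintro (h | ⟨C, hC, hx⟩)
      · exact Or.inl (Or.inl (Or.inl h))
      · by_cases hCI : C ∈ Is
        · by_cases hxβ : x = β C
          · exact Or.inl (Or.inl (Or.inr ⟨C, hCI, hxβ.symm⟩))
          · exact Or.inr ⟨C, hCI, hxβ, hx⟩
        · exact Or.inl (Or.inr ⟨C, ⟨hC, hCI⟩, hx⟩)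
  have eU : DD (T \ Is.image ψ) Q ∪ Is.image ψ = DD T Q := by
    ext x
    simp only [DD, Finset.mem_union, Finset.mem_sdiff]
    constructor
    · rintro ((h | h) | h)
      · exact Or.inl h.1
      · exact Or.inr h
      · exact Or.inl (hψT h)
    · rintro (h | h)
      · by_cases hx : x ∈ Is.image ψ
        · exact Or.inr hx
        · exact Or.inl (Or.inl ⟨h, hx⟩)
      · exact Or.inl (Or.inr h)
  rw [eD, eU] at h4
  exact h4

end Pool.Agent.W335.RD.Adir
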